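import Mathlib

set_option autoImplicit false

/-! Dense clusters of zeros: definitions -/

namespace Pool.Agent.Helper14K9.DC

open Complex

noncomputable section

/-- zeros of zeta with real part at least `σ` and ordinate in `(0, T]` -/
def zeros (σ T : ℝ) : Set ℂ := {s : ℂ | riemannZeta s = 0 ∧ σ ≤ s.re ∧ 0 < s.im ∧ s.im ≤ T}

/-- the number of the elements of a set `A` of zeros of zeta, counted with multiplicity -/
def count (A : Set ℂ) : ℕ := ∑ᶠ s ∈ A, analyticOrderNatAt riemannZeta s

/-- the zeros of zeta in the closed disc with centre `1 + iγ` and radius `1 - β + δ`, where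
`ρ = β + iγ` -/
def near (δ : ℝ) (ρ : ℂ) : Set ℂ :=
  {s : ℂ | riemannZeta s = 0 ∧ ‖s - (1 + ρ.im * I)‖ ≤ 1 - ρ.re + δ}

/-- `|(z + conj ρ') / (z - ρ')|²` for `z = A` and `ρ' = x - i v`: the square of the modulus of the
reciprocal of a Blaschke factor of the right half-plane -/
def q (A x v : ℝ) : ℝ := ((A + x) ^ 2 + v ^ 2) / ((A - x) ^ 2 + v ^ 2)

/-- the zeros of zeta right of the critical line at vertical distance at most `H` from `t` -/
def right (H t : ℝ) : Set ℂ := {ρ : ℂ | riemannZeta ρ = 0 ∧ 1 / 2 < ρ.re ∧ |t - ρ.im| ≤ H}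

/-- the sum of `log |(s - 1 + conj ρ) / (s - ρ)|²` over the zeros `ρ` of zeta (with multiplicity) right
of the critical line at vertical distance at most `H` from `t`, where `s = 1/2 + A + it` -/
def Energy (A H t : ℝ) : ℝ :=
  ∑ᶠ ρ ∈ right H t, (analyticOrderNatAt riemannZeta ρ : ℝ) * Real.log (q A (ρ.re - 1 / 2) (t - ρ.im))

end

end Pool.Agent.Helper14K9.DC
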