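import Pool.Agent.Y757.HW.Bla
import Pool.Agent.Helper14K9.DC.Defs

set_option autoImplicit false

/-! The Blaschke product of the zeros right of the critical line at a point right of the line `Re s = 1` -/

namespace Pool.Agent.Helper14K9.DC

open MeasureTheory Set Filter Topology Complex Pool.Agent.Y757.LS Pool.Agent.Y757.EM Pool.Agent.H437R2
open Pool.Agent.Y757.HW (fk kmu kmu_lintegral kmu_sf kmu_fin kmu_good pt_w z1_bound)
open scoped ENNReal ComplexConjugate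

noncomputable section

lemma q_eq (A : ℝ) (ρ : ℂ) (t : ℝ) : (‖(A : ℂ) + conj (ρ - (1 / 2 + t * I))‖ /
    ‖(A : ℂ) - (ρ - (1 / 2 + t * I))‖) ^ 2 = q A (ρ.re - 1 / 2) (t - ρ.im) := by
  rw [div_pow, ← Complex.normSq_eq_norm_sq, ← Complex.normSq_eq_norm_sq, Complex.normSq_apply,
    Complex.normSq_apply]
  unfold q
  simp
  congr 1 <;> ring

lemma one_le_q {A x v : ℝ} (hA : 0 < A) (hx : 0 ≤ x) (hx1 : x < A) : 1 ≤ q A x v := by
  unfold q
  rw [one_le_div (by nlinarith [sq_nonneg v, sq_nonneg (A - x), mul_pos (sub_pos.2 hx1) (sub_pos.2 hx1)])]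
  nlinarith [mul_nonneg hA.le hx]

theorem bla (A : ℝ) (hA : 1 / 2 < A) (k : ℕ) (hk : 1 ≤ k) : ∃ C : ℝ, 0 ≤ C ∧ ∀ (t : ℝ) (S : Finset ℂ),
    (∀ ρ ∈ S, riemannZeta ρ = 0 ∧ 1 / 2 < ρ.re ∧ ρ.re < 1) →
      ENNReal.ofReal (∏ ρ ∈ S, q A (ρ.re - 1 / 2) (t - ρ.im) ^ (k * analyticOrderNatAt riemannZeta ρ)) ≤
        ENNReal.ofReal C * Kop kmu (fk k) t := by
  obtain ⟨K, hK, hzb⟩ := zeta_bounds (a := 1 / 2 + A) (by linarith)
  obtain ⟨C1, hC1, hz1⟩ := z1_bound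
  have hK0 : 0 < K := by linarith
  have hA0 : 0 < A := by linarith
  set c0 : ℝ := min 1 (2 * (A - 1 / 2)) with hc0
  have hc00 : 0 < c0 := lt_min one_pos (by linarith)
  have hc01 : c0 ≤ 1 := min_le_left _ _
  have hc02 : c0 ≤ 2 * (A - 1 / 2) := min_le_right _ _
  set B : ℝ := max 1 (A ^ 2) with hB
  have hB1 : 1 ≤ B := le_max_left _ _
  have hB2 : A ^ 2 ≤ B := le_max_right _ _
  have hB0 : 0 < B := by linarith
  set K' : ℝ := K / c0 with hK'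
  have hK'0 : 0 < K' := by positivity
  set D : ℝ := B ^ (5 * k + 2) / A with hD
  have hD0 : 0 < D := by positivity
  refine ⟨4 ^ (5 * k + 1) * (7 * K') ^ (2 * k) * 2 ^ k * D, by positivity, fun t S hS => ?_⟩
  set w0 : ℂ := 1 / 2 + t * I with hw0
  have hw0re : w0.re = 1 / 2 := by simp [hw0]
  have hw0im : w0.im = t := by simp [hw0]
  have hw0n : 1 / 2 ≤ ‖w0‖ := by
    have := Complex.abs_re_le_norm w0
    rw [hw0re, abs_of_pos (by norm_num)] at this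
    exact this
  have hF : Differentiable ℂ riemannZeta₁ := differentiable_riemannZeta₁
  set G : ℂ → ℂ := (fun z => riemannZeta₁ (w0 + z)) ^ k with hG
  have hF' : Differentiable ℂ (fun z => riemannZeta₁ (w0 + z)) := hF.comp (by fun_prop)
  have hGd : Differentiable ℂ G := hF'.pow k
  have hGn : ∀ z, ‖G z‖ = ‖riemannZeta₁ (w0 + z)‖ ^ k := fun z => by rw [hG, Pi.pow_apply, norm_pow]
  -- value at the centre
  set s : ℂ := w0 + A with hs
  have hsre : s.re = 1 / 2 + A := by rw [hs, add_re, hw0re, ofReal_re]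
  have hsim : s.im = t := by rw [hs, add_im, hw0im, ofReal_im, add_zero]
  have hs1 : s ≠ 1 := by
    intro h
    have := congrArg Complex.re h
    rw [hsre, one_re] at this
    linarith
  have hsn : c0 * ‖w0‖ ≤ ‖s - 1‖ := by
    have h1 : (c0 * ‖w0‖) ^ 2 ≤ ‖s - 1‖ ^ 2 := by
      rw [mul_pow, ← Complex.normSq_eq_norm_sq, ← Complex.normSq_eq_norm_sq, Complex.normSq_apply,
        Complex.normSq_apply, sub_re, sub_im, hsre, hsim, hw0re, hw0im, one_re, one_im]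
      have e1 : c0 ^ 2 ≤ 1 := by nlinarith
      have e2 : c0 ^ 2 ≤ (2 * (A - 1 / 2)) ^ 2 := by gcongr
      have e3 : c0 ^ 2 * t ^ 2 ≤ 1 * t ^ 2 := by gcongr
      nlinarith
    exact (pow_le_pow_iff_left₀ (by positivity) (norm_nonneg _) two_ne_zero).1 h1
  have hsF : ‖w0‖ / K' ≤ ‖riemannZeta₁ s‖ := by
    rw [Pool.Agent.H437R2.z1_of_ne hs1, norm_mul]
    have h1 := (hzb s hsre.ge).2
    have e : ‖w0‖ / K' = (c0 * ‖w0‖) * (1 / K) := by rw [hK']; field_simp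
    rw [e]
    calc (c0 * ‖w0‖) * (1 / K) ≤ ‖s - 1‖ * ‖riemannZeta s‖ := by gcongr
      _ = _ := by first | rfl | ring
  have hG1 : ((‖w0‖ / K') ^ k) ^ 2 ≤ ‖G (A : ℂ)‖ ^ 2 := by
    rw [hGn, ← hs]
    gcongr
  have hGA : G (A : ℂ) ≠ 0 := by
    intro h0
    have h1 : 0 < ‖w0‖ := by linarith
    have h2 : 0 < ((‖w0‖ / K') ^ k) ^ 2 := by positivity
    have h3 := h2.trans_le hG1
    rw [h0, norm_zero, zero_pow two_ne_zero] at h3
    exact lt_irrefl _ h3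
  -- growth
  have hgr : ∀ z : ℂ, 0 ≤ z.re → ‖G z‖ ≤ (C1 ^ k * (1 + ‖w0‖) ^ (5 * k)) * (1 + ‖z‖) ^ (5 * k) := by
    intro z hz
    rw [hGn]
    have h1 : ‖riemannZeta₁ (w0 + z)‖ ≤ C1 * ((1 + ‖w0‖) * (1 + ‖z‖)) ^ 5 := by
      refine (hz1 (w0 + z) (by rw [add_re, hw0re]; linarith)).trans ?_
      have h2 : ‖w0 + z‖ + 1 ≤ (1 + ‖w0‖) * (1 + ‖z‖) := by
        have := norm_add_le w0 z
        nlinarith [norm_nonneg w0, norm_nonneg z, mul_nonneg (norm_nonneg w0) (norm_nonneg z)]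
      gcongr
    calc ‖riemannZeta₁ (w0 + z)‖ ^ k ≤ (C1 * ((1 + ‖w0‖) * (1 + ‖z‖)) ^ 5) ^ k := by gcongr
      _ = _ := by rw [mul_pow, ← pow_mul, mul_pow]; ring
  classical
  set S' : Finset ℂ := S.image (fun ρ => ρ - w0) with hS'
  have key := Pool.Agent.Y693.R4.blaschke hGd (A := A) (p := 5 * k) (m := 5 * k + 1) hA0 hgr le_rfl S' hGA
  -- the orders
  have hord : ∀ ρ ∈ S, analyticOrderNatAt G (ρ - w0) = k * analyticOrderNatAt riemannZeta ρ := by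
    intro ρ hρ
    have hρ1 : ρ ≠ 1 := by
      rintro rfl
      have := (hS 1 hρ).2.2
      rw [one_re] at this
      linarith
    rw [hG, analyticOrderNatAt_pow (hF'.analyticAt _)]
    have h1 : analyticOrderAt (riemannZeta₁ ∘ fun z => w0 + z) (ρ - w0) = analyticOrderAt riemannZeta₁ (w0 + (ρ - w0)) := by
      refine analyticOrderAt_comp_of_deriv_ne_zero (by fun_prop) ?_
      have : deriv (fun z : ℂ => w0 + z) (ρ - w0) = 1 := by
        rw [deriv_const_add, deriv_id'']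
      rw [this]
      exact one_ne_zero
    have h2 : analyticOrderNatAt (fun z => riemannZeta₁ (w0 + z)) (ρ - w0) = analyticOrderNatAt riemannZeta₁ ρ := by
      unfold analyticOrderNatAt
      have h3 : (fun z => riemannZeta₁ (w0 + z)) = (riemannZeta₁ ∘ fun z => w0 + z) := rfl
      rw [h3, h1]
      congr 2
      ring
    rw [h2, Pool.Agent.Y757.LL.order_eq hρ1, smul_eq_mul]
  have hprod : ∏ ρ ∈ S', (‖(A : ℂ) + conj ρ‖ / ‖(A : ℂ) - ρ‖) ^ (2 * analyticOrderNatAt G ρ) =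
      ∏ ρ ∈ S, q A (ρ.re - 1 / 2) (t - ρ.im) ^ (k * analyticOrderNatAt riemannZeta ρ) := by
    rw [hS', Finset.prod_image (fun x _ y _ hxy => sub_left_injective hxy)]
    refine Finset.prod_congr rfl fun ρ hρ => ?_
    rw [pow_mul, hw0, q_eq, ← hw0, hord ρ hρ]
  rw [hprod] at key
  set P : ℝ := ∏ ρ ∈ S, q A (ρ.re - 1 / 2) (t - ρ.im) ^ (k * analyticOrderNatAt riemannZeta ρ) with hP
  have hP0 : 0 ≤ P := Finset.prod_nonneg fun ρ hρ =>
    pow_nonneg (zero_le_one.trans (one_le_q hA0 (by linarith [(hS ρ hρ).2.1]) (by linarith [(hS ρ hρ).2.2]))) _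
  -- the weight
  have hwt : ∀ y : ℝ, (A ^ 2 / (A ^ 2 + y ^ 2)) ^ (5 * k + 1) * (A / (A ^ 2 + y ^ 2)) ≤
      D * ((1 + y ^ 2) ^ (5 * k + 2))⁻¹ := by
    intro y
    have h0 : (0:ℝ) < 1 + y ^ 2 := by positivity
    have h0' : (0:ℝ) < A ^ 2 + y ^ 2 := by positivity
    have e1 : A ^ 2 / (A ^ 2 + y ^ 2) ≤ B / (1 + y ^ 2) := by
      rw [div_le_div_iff₀ h0' h0]
      nlinarith [mul_nonneg (sub_nonneg.2 hB1) (sq_nonneg y), mul_nonneg (sub_nonneg.2 hB2) (sq_nonneg y),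
        mul_nonneg (sub_nonneg.2 hB1) (sq_nonneg A), mul_nonneg (sub_nonneg.2 hB2) (sq_nonneg A),
        mul_nonneg (sq_nonneg A) (sq_nonneg y)]
    have e2 : A / (A ^ 2 + y ^ 2) = (1 / A) * (A ^ 2 / (A ^ 2 + y ^ 2)) := by field_simp
    rw [e2]
    calc (A ^ 2 / (A ^ 2 + y ^ 2)) ^ (5 * k + 1) * ((1 / A) * (A ^ 2 / (A ^ 2 + y ^ 2)))
        ≤ (B / (1 + y ^ 2)) ^ (5 * k + 1) * ((1 / A) * (B / (1 + y ^ 2))) := by gcongr
      _ = (1 / A) * (B / (1 + y ^ 2)) ^ (5 * k + 2) := by rw [pow_succ _ (5 * k + 1)]; ring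
      _ = _ := by rw [hD, div_pow]; field_simp
  -- the integrand
  have hint : ∀ y : ℝ, ‖G (y * I)‖ ^ 2 * ((A ^ 2 / (A ^ 2 + y ^ 2)) ^ (5 * k + 1) * (A / (A ^ 2 + y ^ 2))) ≤
      ((7 * ‖w0‖) ^ (2 * k) * 2 ^ k * D) * (‖GG (pt 0 (t + y))‖ ^ (2 * k) * ((1 + y ^ 2) ^ 3)⁻¹) := by
    intro y
    have hw : w0 + y * I = pt 0 (t + y) := by
      rw [pt_w, hw0]; push_cast; ring
    have h3 := add_three_ne (s := pt 0 (t + y)) (by rw [pt_re]; norm_num)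
    have h4 : riemannZeta₁ (pt 0 (t + y)) = GG (pt 0 (t + y)) * (pt 0 (t + y) + 3) := by
      unfold GG
      rw [div_mul_cancel₀ _ h3]
    have h5 : ‖pt 0 (t + y) + 3‖ ≤ 7 * ‖w0‖ * (1 + |y|) := by
      rw [← hw]
      refine (norm_add_le _ _).trans ?_
      have h6 := norm_add_le w0 (y * I)
      have h7 : ‖(y : ℂ) * I‖ = |y| := by simp
      have h8 : ‖(3:ℂ)‖ = 3 := by simp
      rw [h7] at h6
      rw [h8]
      nlinarith [abs_nonneg y, norm_nonneg w0, mul_le_mul_of_nonneg_right hw0n (abs_nonneg y)]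
    have h9 : (1 + |y|) ^ 2 ≤ 2 * (1 + y ^ 2) := by nlinarith [sq_nonneg (1 - |y|), sq_abs y]
    have h0 : (0:ℝ) < 1 + y ^ 2 := by positivity
    have e1 : ‖G (y * I)‖ ^ 2 ≤ ‖GG (pt 0 (t + y))‖ ^ (2 * k) * ((7 * ‖w0‖) ^ (2 * k) * (2 * (1 + y ^ 2)) ^ k) := by
      rw [hGn, hw, h4, norm_mul, ← pow_mul, mul_comm k 2, mul_pow]
      refine mul_le_mul_of_nonneg_left ?_ (by positivity)
      calc ‖pt 0 (t + y) + 3‖ ^ (2 * k) ≤ (7 * ‖w0‖ * (1 + |y|)) ^ (2 * k) := by gcongr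
        _ = (7 * ‖w0‖) ^ (2 * k) * ((1 + |y|) ^ 2) ^ k := by rw [mul_pow, pow_mul (1 + |y|)]
        _ ≤ _ := by gcongr
    have e3 : (1 + y ^ 2) ^ k * ((1 + y ^ 2) ^ (5 * k + 2))⁻¹ ≤ ((1 + y ^ 2) ^ 3)⁻¹ := by
      rw [← div_eq_mul_inv, div_le_iff₀ (by positivity), ← div_eq_inv_mul, le_div_iff₀ (by positivity),
        ← pow_add]
      exact pow_le_pow_right₀ (by nlinarith [sq_nonneg y]) (by omega)
    calc ‖G (y * I)‖ ^ 2 * ((A ^ 2 / (A ^ 2 + y ^ 2)) ^ (5 * k + 1) * (A / (A ^ 2 + y ^ 2)))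
        ≤ ‖GG (pt 0 (t + y))‖ ^ (2 * k) * ((7 * ‖w0‖) ^ (2 * k) * (2 * (1 + y ^ 2)) ^ k) *
            (D * ((1 + y ^ 2) ^ (5 * k + 2))⁻¹) := by
          apply mul_le_mul e1 (hwt y) (by positivity) (by positivity)
      _ = (‖GG (pt 0 (t + y))‖ ^ (2 * k) * ((7 * ‖w0‖) ^ (2 * k) * 2 ^ k * D)) *
            ((1 + y ^ 2) ^ k * ((1 + y ^ 2) ^ (5 * k + 2))⁻¹) := by rw [mul_pow 2]; ring
      _ ≤ (‖GG (pt 0 (t + y))‖ ^ (2 * k) * ((7 * ‖w0‖) ^ (2 * k) * 2 ^ k * D)) * ((1 + y ^ 2) ^ 3)⁻¹ := by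
          gcongr
      _ = _ := by ring
  set L : ℝ≥0∞ := ∫⁻ y : ℝ, ENNReal.ofReal (‖GG (pt 0 (t + y))‖ ^ (2 * k) * ((1 + y ^ 2) ^ 3)⁻¹) with hL
  have hmG : Measurable (fun y : ℝ => GG (pt 0 (t + y))) := GG_measurable.comp (by unfold pt; fun_prop)
  have hI : ENNReal.ofReal (∫ y : ℝ, ‖G (y * I)‖ ^ 2 *
      ((A ^ 2 / (A ^ 2 + y ^ 2)) ^ (5 * k + 1) * (A / (A ^ 2 + y ^ 2)))) ≤
      ENNReal.ofReal ((7 * ‖w0‖) ^ (2 * k) * 2 ^ k * D) * L := by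
    have hm : Measurable (fun y : ℝ => ‖G (y * I)‖ ^ 2 *
      ((A ^ 2 / (A ^ 2 + y ^ 2)) ^ (5 * k + 1) * (A / (A ^ 2 + y ^ 2)))) := by
      have h1 : Measurable (fun y : ℝ => G (y * I)) := hGd.continuous.measurable.comp (by fun_prop)
      exact (h1.norm.pow_const 2).mul (by fun_prop)
    rw [integral_eq_lintegral_of_nonneg_ae (Eventually.of_forall fun y => by positivity)
      hm.aestronglyMeasurable]
    refine ENNReal.ofReal_toReal_le.trans ?_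
    rw [hL, ← lintegral_const_mul' _ _ ENNReal.ofReal_ne_top]
    refine lintegral_mono fun y => ?_
    rw [← ENNReal.ofReal_mul (by positivity)]
    exact ENNReal.ofReal_le_ofReal (hint y)
  have hLK : L = Kop kmu (fk k) t := by
    unfold Kop
    rw [kmu_lintegral (f := fun y => fk k (t + y)) (by unfold fk; fun_prop), hL]
    refine lintegral_congr fun y => ?_
    unfold fk
    rw [← ENNReal.ofReal_mul (by positivity), mul_comm]
  rw [← hLK]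
  -- conclusion
  have hw00 : 0 < ‖w0‖ := by linarith
  have h10 : ((‖w0‖ / K') ^ k) ^ 2 * (1 / 4) ^ (5 * k + 1) * P ≤ (1 / Real.pi) * ∫ y : ℝ, ‖G (y * I)‖ ^ 2 *
      ((A ^ 2 / (A ^ 2 + y ^ 2)) ^ (5 * k + 1) * (A / (A ^ 2 + y ^ 2))) := by
    refine le_trans ?_ key
    gcongr
  have h11 : P ≤ (4 ^ (5 * k + 1) * (K' / ‖w0‖) ^ (2 * k)) * ∫ y : ℝ, ‖G (y * I)‖ ^ 2 *
      ((A ^ 2 / (A ^ 2 + y ^ 2)) ^ (5 * k + 1) * (A / (A ^ 2 + y ^ 2))) := by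
    set J : ℝ := ∫ y : ℝ, ‖G (y * I)‖ ^ 2 *
      ((A ^ 2 / (A ^ 2 + y ^ 2)) ^ (5 * k + 1) * (A / (A ^ 2 + y ^ 2))) with hJ
    have hJ0 : 0 ≤ J := integral_nonneg fun y => by positivity
    have h12 : (1 / Real.pi) * J ≤ J := by
      have : 1 / Real.pi ≤ 1 := by
        rw [div_le_one Real.pi_pos]
        linarith [Real.pi_gt_three]
      nlinarith
    have h13 := h10.trans h12
    have e : (4 ^ (5 * k + 1) * (K' / ‖w0‖) ^ (2 * k)) * (((‖w0‖ / K') ^ k) ^ 2 * (1 / 4) ^ (5 * k + 1) * P) = P := by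
      have e1 : (4:ℝ) ^ (5 * k + 1) * (1 / 4) ^ (5 * k + 1) = 1 := by
        rw [← mul_pow]; norm_num
      have e2 : (K' / ‖w0‖) ^ (2 * k) * ((‖w0‖ / K') ^ k) ^ 2 = 1 := by
        rw [← pow_mul, mul_comm k 2, ← mul_pow]
        rw [div_mul_div_comm, mul_comm K', div_self (by positivity), one_pow]
      calc _ = (4 ^ (5 * k + 1) * (1 / 4) ^ (5 * k + 1)) * ((K' / ‖w0‖) ^ (2 * k) * ((‖w0‖ / K') ^ k) ^ 2) * P := by ring
        _ = P := by rw [e1, e2]; ring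
    calc P = (4 ^ (5 * k + 1) * (K' / ‖w0‖) ^ (2 * k)) * (((‖w0‖ / K') ^ k) ^ 2 * (1 / 4) ^ (5 * k + 1) * P) := e.symm
      _ ≤ _ := by gcongr
  refine (ENNReal.ofReal_le_ofReal h11).trans ?_
  rw [ENNReal.ofReal_mul (by positivity)]
  refine (mul_le_mul_right hI _).trans ?_
  rw [← mul_assoc, ← ENNReal.ofReal_mul (by positivity)]
  have e5 : (K' / ‖w0‖) ^ (2 * k) * (7 * ‖w0‖) ^ (2 * k) = (7 * K') ^ (2 * k) := by
    rw [← mul_pow]
    congr 1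
    field_simp
  have e6 : 4 ^ (5 * k + 1) * (K' / ‖w0‖) ^ (2 * k) * ((7 * ‖w0‖) ^ (2 * k) * 2 ^ k * D) =
      4 ^ (5 * k + 1) * (7 * K') ^ (2 * k) * 2 ^ k * D := by
    rw [← e5]; ring
  rw [e6]

end

end Pool.Agent.Helper14K9.DC
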