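import Pool.Agent.Helper14K9.DC.Dom

set_option autoImplicit false

/-! The energy at a dense cluster; counting by integration -/

namespace Pool.Agent.Helper14K9.DC

open MeasureTheory Set Complex
open scoped ENNReal

noncomputable section

lemma zeros_finite (σ T : ℝ) : (zeros σ T).Finite := by
  have hcomp : IsCompact (Icc σ 1 ×ℂ Icc 0 T) := isCompact_Icc.reProdIm isCompact_Icc
  refine (Pool.Agent.Y757.LM.zeta_compact hcomp).subset ?_
  rintro s ⟨h1, h2, h3, h4⟩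
  exact ⟨⟨⟨h2, (re_lt h1).le⟩, ⟨h3.le, h4⟩⟩, h1⟩

lemma near_finite (δ : ℝ) (ρ : ℂ) : (near δ ρ).Finite := by
  refine (Pool.Agent.Y757.LM.zeta_compact
    (isCompact_closedBall (1 + ρ.im * I) (1 - ρ.re + δ))).subset ?_
  rintro s ⟨h1, h2⟩
  refine ⟨?_, h1⟩
  rw [Metric.mem_closedBall, dist_eq_norm]
  exact h2

lemma count_eq {A : Set ℂ} (hA : A.Finite) :
    (count A : ℝ) = ∑ ρ ∈ hA.toFinset, (analyticOrderNatAt riemannZeta ρ : ℝ) := by
  unfold count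
  rw [finsum_mem_eq_finite_toFinset_sum _ hA]
  push_cast
  rfl

/-- the factor of one zero of the cluster -/
lemma log_q_ge {r d0 η : ℝ} (hr0 : 0 < r) (hr : r < 1 / 2) (hd0 : 0 < d0) (hη : 0 ≤ η) {ρ : ℂ} {γ t : ℝ}
    (hre : ρ.re < 1) (hd : ‖ρ - (1 + γ * I)‖ ≤ r) (ht : |t - γ| ≤ η) :
    2 * Real.log ((1 - r) / r) - 2 * (d0 + η) / r ≤ Real.log (q (1 / 2 + d0) (ρ.re - 1 / 2) (t - ρ.im)) := by
  set κ : ℝ := d0 + η with hκ
  have hκ0 : 0 < κ := by linarith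
  set d : ℝ := ‖ρ - (1 + γ * I)‖ with hdd
  have hd00 : 0 ≤ d := norm_nonneg _
  have hu : 1 - ρ.re ≤ d := by
    have h1 := Complex.abs_re_le_norm (ρ - (1 + γ * I))
    have h2 : (ρ - (1 + γ * I)).re = ρ.re - 1 := by simp
    rw [h2, abs_of_neg (by linarith)] at h1
    linarith
  have hDn : (1 / 2 + d0 - (ρ.re - 1 / 2)) ^ 2 + (t - ρ.im) ^ 2 ≤ (d + κ) ^ 2 := by
    have h1 : (1 / 2 + d0 - (ρ.re - 1 / 2)) ^ 2 + (t - ρ.im) ^ 2 =
        ‖-(ρ - (1 + γ * I)) + ((d0 : ℂ) + ((t - γ : ℝ) : ℂ) * I)‖ ^ 2 := by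
      rw [← Complex.normSq_eq_norm_sq, Complex.normSq_apply]
      simp
      ring
    rw [h1]
    have h2 : ‖-(ρ - (1 + γ * I)) + ((d0 : ℂ) + ((t - γ : ℝ) : ℂ) * I)‖ ≤ d + κ := by
      refine (norm_add_le _ _).trans ?_
      rw [norm_neg]
      have h3 : ‖(d0 : ℂ) + ((t - γ : ℝ) : ℂ) * I‖ ≤ d0 + η := by
        refine (norm_add_le _ _).trans ?_
        rw [norm_mul, Complex.norm_I, mul_one, Complex.norm_real, Complex.norm_real,
          Real.norm_of_nonneg hd0.le, Real.norm_eq_abs]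
        linarith
      linarith
    gcongr
  have hDn0 : 0 < (1 / 2 + d0 - (ρ.re - 1 / 2)) ^ 2 + (t - ρ.im) ^ 2 := by
    have : 0 < (1 / 2 + d0 - (ρ.re - 1 / 2)) := by linarith
    positivity
  set Dn : ℝ := (1 / 2 + d0 - (ρ.re - 1 / 2)) ^ 2 + (t - ρ.im) ^ 2 with hDnd
  have hq : q (1 / 2 + d0) (ρ.re - 1 / 2) (t - ρ.im) = 1 + 4 * (1 / 2 + d0) * (ρ.re - 1 / 2) / Dn := by
    unfold q
    rw [← hDnd]
    field_simp
    rw [hDnd]
    ring
  have hx : 1 - 2 * d ≤ 4 * (1 / 2 + d0) * (ρ.re - 1 / 2) := by nlinarith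
  have h1 : (1 - 2 * r) / (r + κ) ^ 2 ≤ 4 * (1 / 2 + d0) * (ρ.re - 1 / 2) / Dn := by
    calc (1 - 2 * r) / (r + κ) ^ 2 ≤ (1 - 2 * d) / (d + κ) ^ 2 := by
          apply div_le_div₀ (by linarith) (by linarith) (by positivity)
          gcongr
      _ ≤ _ := div_le_div₀ (by linarith) hx hDn0 hDn
  have h2 : ((1 - r) / r) ^ 2 * (r / (r + κ)) ^ 2 ≤ q (1 / 2 + d0) (ρ.re - 1 / 2) (t - ρ.im) := by
    rw [hq]
    refine le_trans ?_ (add_le_add_right h1 1)
    have e : ((1 - r) / r) ^ 2 * (r / (r + κ)) ^ 2 = (1 - r) ^ 2 / (r + κ) ^ 2 := by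
      field_simp
    rw [e, div_le_iff₀ (by positivity), add_mul, div_mul_cancel₀ _ (by positivity)]
    nlinarith
  have h3 : 0 < (1 - r) / r := by
    have : 0 < 1 - r := by linarith
    positivity
  have h4 : 0 < r / (r + κ) := by positivity
  have h5 := Real.log_le_log (by positivity) h2
  rw [Real.log_mul (by positivity) (by positivity), Real.log_pow, Real.log_pow] at h5
  have h6 : Real.log (r / (r + κ)) ≥ -(κ / r) := by
    have h7 : Real.log ((r + κ) / r) ≤ κ / r := by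
      have h8 := Real.log_le_sub_one_of_pos (show 0 < (r + κ) / r by positivity)
      have h9 : (r + κ) / r - 1 = κ / r := by field_simp; ring
      linarith
    have h8 : Real.log (r / (r + κ)) = - Real.log ((r + κ) / r) := by
      rw [← Real.log_inv, inv_div]
    rw [h8]
    linarith
  push_cast at h5
  have h7 : 2 * κ / r = 2 * (κ / r) := by ring
  rw [h7]
  linarith

/-- the energy at a cluster -/
theorem energy_ge {δ σ d0 η : ℝ} (hδ : 0 < δ) (hσ : 1 / 2 + δ < σ) (hσ1 : σ ≤ 1) (hd0 : 0 < d0) (hη : 0 ≤ η)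
    (hη1 : η ≤ 1 / 2) {ρ : ℂ} (hre : σ ≤ ρ.re) {t : ℝ} (ht : |t - ρ.im| ≤ η) :
    (count (near δ ρ) : ℝ) * (2 * Real.log ((σ - δ) / (1 - σ + δ)) - 2 * (d0 + η) / (1 - σ + δ)) ≤
      Energy (1 / 2 + d0) 1 t := by
  classical
  rw [count_eq (near_finite δ ρ), Energy_eq, Finset.sum_mul]
  have hsub : (near_finite δ ρ).toFinset ⊆ (right_fin 1 t).toFinset := by
    intro z hz
    rw [Set.Finite.mem_toFinset] at hz ⊢
    obtain ⟨h1, h2⟩ := hz
    have h3 := Complex.abs_re_le_norm (z - (1 + ρ.im * I))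
    have h4 := Complex.abs_im_le_norm (z - (1 + ρ.im * I))
    have h5 : (z - (1 + ρ.im * I)).re = z.re - 1 := by simp
    have h6 : (z - (1 + ρ.im * I)).im = z.im - ρ.im := by simp
    rw [h5] at h3
    rw [h6] at h4
    refine ⟨h1, ?_, ?_⟩
    · have := (abs_le.1 (h3.trans h2)).1
      linarith
    · have h7 := abs_sub_le t ρ.im z.im
      rw [abs_sub_comm ρ.im z.im] at h7
      linarith
  refine (Finset.sum_le_sum fun z hz => ?_).trans
    (Finset.sum_le_sum_of_subset_of_nonneg hsub fun z hz _ => ?_)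
  · rw [Set.Finite.mem_toFinset] at hz
    refine mul_le_mul_of_nonneg_left ?_ (Nat.cast_nonneg _)
    have h := log_q_ge (r := 1 - σ + δ) (by linarith) (by linarith) hd0 hη (re_lt hz.1)
      (hz.2.trans (by linarith)) ht
    have e : 1 - (1 - σ + δ) = σ - δ := by ring
    rw [e] at h
    exact h
  · rw [Set.Finite.mem_toFinset] at hz
    exact mul_nonneg (Nat.cast_nonneg _) (log_q_nonneg (by linarith) hz.1 hz.2.1 _)

/-- counting by integration -/
theorem cou (h : ℝ) (hh : 0 < h) (S : Finset ℂ) (m : ℂ → ℕ) (M : ℝ) (E : Set ℝ)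
    (hE : ∀ ρ ∈ S, ∀ t : ℝ, |t - ρ.im| ≤ h → t ∈ E)
    (hcount : ∀ t : ℝ, (∑ ρ ∈ S.filter (fun ρ => |t - ρ.im| ≤ h), (m ρ : ℝ)) ≤ M) :
    ENNReal.ofReal ((2 * h) * ∑ ρ ∈ S, (m ρ : ℝ)) ≤ ENNReal.ofReal M * volume E := by
  classical
  obtain ⟨J, hJ⟩ : ∃ J : ℂ → Set ℝ, ∀ ρ, J ρ = Icc (ρ.im - h) (ρ.im + h) :=
    ⟨_, fun _ => rfl⟩
  have hmem : ∀ (ρ : ℂ) (t : ℝ), t ∈ J ρ ↔ |t - ρ.im| ≤ h := by
    intro ρ t
    rw [hJ, mem_Icc, abs_le]
    constructor
    · rintro ⟨h1, h2⟩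
      constructor <;> linarith
    · rintro ⟨h1, h2⟩
      constructor <;> linarith
  have hJm : ∀ ρ, MeasurableSet (J ρ) := fun ρ => by
    rw [hJ]
    exact measurableSet_Icc
  have hvol : ∀ ρ, volume (J ρ) = ENNReal.ofReal (2 * h) := by
    intro ρ
    rw [hJ, Real.volume_Icc, show ρ.im + h - (ρ.im - h) = 2 * h by ring]
  have hUm : MeasurableSet (⋃ ρ ∈ S, J ρ) := Finset.measurableSet_biUnion S fun ρ _ => hJm ρ
  have hUE : (⋃ ρ ∈ S, J ρ) ⊆ E := by
    intro t ht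
    rw [mem_iUnion₂] at ht
    obtain ⟨ρ, hρ, h'⟩ := ht
    exact hE ρ hρ t ((hmem ρ t).1 h')
  calc ENNReal.ofReal ((2 * h) * ∑ ρ ∈ S, (m ρ : ℝ))
        = ∑ ρ ∈ S, ENNReal.ofReal (m ρ : ℝ) * ENNReal.ofReal (2 * h) := by
        rw [← Finset.sum_mul, ENNReal.ofReal_mul (by positivity), mul_comm,
          ENNReal.ofReal_sum_of_nonneg fun _ _ => Nat.cast_nonneg _]
    _ = ∑ ρ ∈ S, ∫⁻ t, (J ρ).indicator (fun _ => ENNReal.ofReal (m ρ : ℝ)) t := by
        refine Finset.sum_congr rfl fun ρ _ => ?_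
        rw [lintegral_indicator_const (hJm ρ), hvol]
    _ = ∫⁻ t, ∑ ρ ∈ S, (J ρ).indicator (fun _ => ENNReal.ofReal (m ρ : ℝ)) t :=
        (lintegral_finsetSum _ fun ρ _ => measurable_const.indicator (hJm ρ)).symm
    _ ≤ ∫⁻ t, (⋃ ρ ∈ S, J ρ).indicator (fun _ => ENNReal.ofReal M) t := by
        refine lintegral_mono fun t => ?_
        have hsum : (∑ ρ ∈ S, (J ρ).indicator (fun _ => ENNReal.ofReal (m ρ : ℝ)) t) =
            ENNReal.ofReal (∑ ρ ∈ S.filter (fun ρ => |t - ρ.im| ≤ h), (m ρ : ℝ)) := by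
          rw [ENNReal.ofReal_sum_of_nonneg fun _ _ => Nat.cast_nonneg _, Finset.sum_filter]
          refine Finset.sum_congr rfl fun ρ _ => ?_
          by_cases h' : |t - ρ.im| ≤ h
          · rw [if_pos h', indicator_of_mem ((hmem ρ t).2 h')]
          · rw [if_neg h', indicator_of_notMem fun h'' => h' ((hmem ρ t).1 h'')]
        by_cases ht : t ∈ ⋃ ρ ∈ S, J ρ
        · rw [indicator_of_mem ht]
          simp only [hsum]
          exact ENNReal.ofReal_le_ofReal (hcount t)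
        · rw [indicator_of_notMem ht]
          refine le_of_eq (Finset.sum_eq_zero fun ρ hρ => ?_)
          exact indicator_of_notMem (fun h' => ht (mem_iUnion₂.2 ⟨ρ, hρ, h'⟩)) _
    _ = ENNReal.ofReal M * volume (⋃ ρ ∈ S, J ρ) := lintegral_indicator_const hUm _
    _ ≤ ENNReal.ofReal M * volume E := mul_le_mul_right (measure_mono hUE) _

end

end Pool.Agent.Helper14K9.DC
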