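import Pool.Agent.Helper14K9.DC.Bla
import Pool.Agent.Y757.HW.Top4

set_option autoImplicit false

/-! Exponential moments of the energy, pointwise bounds -/

namespace Pool.Agent.Helper14K9.DC

open MeasureTheory Set Filter Topology Pool.Agent.Y757.LS Pool.Agent.Y757.EM Pool.Agent.Y757.LM
open Pool.Agent.Y757.HW (fk kmu kmu_good fk_meas Growth kop_growth)
open scoped ENNReal

noncomputable section

lemma re_lt {ρ : ℂ} (h : riemannZeta ρ = 0) : ρ.re < 1 := by
  by_contra hc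
  exact riemannZeta_ne_zero_of_one_le_re (not_lt.1 hc) h

lemma right_fin (H t : ℝ) : (right H t).Finite := by
  refine (Pool.Agent.Y757.HW.Zw_fin (σ := 1 / 2) t (2 * H)).subset ?_
  rintro ρ ⟨h1, h2, h3⟩
  refine ⟨h1, h2.le, ?_⟩
  rw [abs_sub_comm]
  linarith

lemma Energy_eq (A H t : ℝ) : Energy A H t = ∑ ρ ∈ (right_fin H t).toFinset,
    (analyticOrderNatAt riemannZeta ρ : ℝ) * Real.log (q A (ρ.re - 1 / 2) (t - ρ.im)) := by
  unfold Energy
  rw [finsum_mem_eq_finite_toFinset_sum _ (right_fin H t)]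

lemma log_q_nonneg {A : ℝ} (hA : 1 / 2 < A) {ρ : ℂ} (h0 : riemannZeta ρ = 0) (h1 : 1 / 2 < ρ.re) (v : ℝ) :
    0 ≤ Real.log (q A (ρ.re - 1 / 2) v) :=
  Real.log_nonneg (one_le_q (by linarith) (by linarith) (by linarith [re_lt h0]))

lemma Energy_nonneg {A : ℝ} (hA : 1 / 2 < A) (H t : ℝ) : 0 ≤ Energy A H t := by
  rw [Energy_eq]
  refine Finset.sum_nonneg fun ρ hρ => mul_nonneg (Nat.cast_nonneg _) ?_
  rw [Set.Finite.mem_toFinset] at hρ
  exact log_q_nonneg hA hρ.1 hρ.2.1 _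

theorem en_dom (A : ℝ) (hA : 1 / 2 < A) (k : ℕ) (hk : 1 ≤ k) : ∃ C : ℝ, 0 ≤ C ∧ ∀ H t : ℝ,
    ENNReal.ofReal (Real.exp (k * Energy A H t)) ≤ ENNReal.ofReal C * Kop kmu (fk k) t := by
  obtain ⟨C, hC, h⟩ := bla A hA k hk
  refine ⟨C, hC, fun H t => ?_⟩
  have h1 := h t (right_fin H t).toFinset fun ρ hρ => by
    rw [Set.Finite.mem_toFinset] at hρ
    exact ⟨hρ.1, hρ.2.1, re_lt hρ.1⟩
  have e : Real.exp (k * Energy A H t) = ∏ ρ ∈ (right_fin H t).toFinset,
      q A (ρ.re - 1 / 2) (t - ρ.im) ^ (k * analyticOrderNatAt riemannZeta ρ) := by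
    rw [Energy_eq, Finset.mul_sum, Real.exp_sum]
    refine Finset.prod_congr rfl fun ρ hρ => ?_
    rw [Set.Finite.mem_toFinset] at hρ
    have hq : 0 < q A (ρ.re - 1 / 2) (t - ρ.im) := zero_lt_one.trans_le
      (one_le_q (by linarith) (by linarith [hρ.2.1]) (by linarith [re_lt hρ.1]))
    rw [← mul_assoc, mul_comm _ (Real.log _), Real.exp_mul, Real.exp_log hq, ← Real.rpow_natCast]
    push_cast
    rfl
  rw [e]
  exact h1

/-- domination by a measurable function -/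
theorem dom (A : ℝ) (hA : 1 / 2 < A) (k : ℕ) (hk : 1 ≤ k) (hyp : HypK k) (e : ℝ) (he : 0 < e) :
    ∃ T0 : ℝ, 1 ≤ T0 ∧ ∀ T : ℝ, T0 ≤ T →
      ∃ Φ : ℝ → ℝ≥0∞, Measurable Φ ∧
        (∀ H t : ℝ, ENNReal.ofReal (Real.exp (k * Energy A H t)) ≤ Φ t) ∧
        ∫⁻ t in Icc 1 T, Φ t ≤ ENNReal.ofReal (T ^ (1 + e)) := by
  obtain ⟨C, hC, hdom⟩ := en_dom A hA k hk
  set ε' : ℝ := min (e / 2) 1 with hε'
  have hε'0 : 0 < ε' := lt_min (by positivity) one_pos
  have hε'1 : ε' ≤ 1 := min_le_right _ _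
  have hε'2 : ε' ≤ e / 2 := min_le_left _ _
  obtain ⟨B, hB, hPB⟩ := hyp ε' hε'0
  obtain ⟨c, hgood⟩ := kmu_good
  have hPB1 := PB.kop le_rfl hgood (fk_meas k) hB (by linarith : 0 ≤ 1 + ε') (by linarith) hPB
  set A2 : ℝ := B * (∫⁻ y, wt y ∂kmu).toReal with hA2
  have hA20 : 0 ≤ A2 := by positivity
  have hm1 : Measurable (Kop kmu (fk k)) := Kop_meas (fk_meas k)
  set D2 : ℝ := C * (A2 * 4) + 1 with hD2
  have hD21 : 1 ≤ D2 := by
    have : 0 ≤ C * (A2 * 4) := by positivity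
    linarith
  refine ⟨D2 ^ (2 / e), Real.one_le_rpow hD21 (by positivity), fun T hT => ?_⟩
  have hT1 : 1 ≤ T := (Real.one_le_rpow hD21 (by positivity)).trans hT
  have hT0 : 0 < T := by linarith
  refine ⟨fun t => ENNReal.ofReal C * Kop kmu (fk k) t, hm1.const_mul _, fun H t => hdom H t, ?_⟩
  rw [lintegral_const_mul' _ _ ENNReal.ofReal_ne_top]
  have h1 : ∫⁻ t in Icc 1 T, Kop kmu (fk k) t ≤ ENNReal.ofReal (A2 * (1 + T) ^ (1 + ε')) :=
    (lintegral_mono_set (Icc_subset_Icc_left (by linarith))).trans (hPB1 T (by linarith))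
  calc ENNReal.ofReal C * ∫⁻ t in Icc 1 T, Kop kmu (fk k) t
      ≤ ENNReal.ofReal C * ENNReal.ofReal (A2 * (1 + T) ^ (1 + ε')) := by gcongr
    _ = ENNReal.ofReal (C * (A2 * (1 + T) ^ (1 + ε'))) := by
        rw [← ENNReal.ofReal_mul hC]
    _ ≤ _ := by
        apply ENNReal.ofReal_le_ofReal
        have h2 : (1 + T) ^ (1 + ε') ≤ 4 * T ^ (1 + e / 2) := by
          calc (1 + T) ^ (1 + ε') ≤ (2 * T) ^ (1 + ε') :=
                Real.rpow_le_rpow (by positivity) (by linarith) (by linarith)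
            _ = 2 ^ (1 + ε') * T ^ (1 + ε') := Real.mul_rpow (by norm_num) hT0.le
            _ ≤ 2 ^ (2:ℝ) * T ^ (1 + e / 2) := by
                gcongr
                · norm_num
                · linarith
            _ = _ := by norm_num
        have h3 : D2 ≤ T ^ (e / 2) := by
          have h4 : D2 = (D2 ^ (2 / e)) ^ (e / 2) := by
            rw [← Real.rpow_mul (by linarith)]
            rw [show 2 / e * (e / 2) = 1 by field_simp, Real.rpow_one]
          rw [h4]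
          exact Real.rpow_le_rpow (by positivity) hT (by positivity)
        calc C * (A2 * (1 + T) ^ (1 + ε'))
            ≤ C * (A2 * (4 * T ^ (1 + e / 2))) := by gcongr
          _ = (C * (A2 * 4)) * T ^ (1 + e / 2) := by ring
          _ ≤ D2 * T ^ (1 + e / 2) := by
              gcongr
              rw [hD2]; linarith
          _ ≤ T ^ (e / 2) * T ^ (1 + e / 2) := by gcongr
          _ = T ^ (1 + e) := by
              rw [← Real.rpow_add hT0]
              congr 1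
              ring

/-- **exponential moments of the energy** -/
theorem exp_energy (A : ℝ) (hA : 1 / 2 < A) (k : ℕ) (hk : 1 ≤ k) (hyp : HypK k) (e : ℝ) (he : 0 < e) :
    ∃ T0 : ℝ, 1 ≤ T0 ∧ ∀ T : ℝ, T0 ≤ T → ∀ H : ℝ,
      ∫⁻ t in Icc 1 T, ENNReal.ofReal (Real.exp (k * Energy A H t)) ≤ ENNReal.ofReal (T ^ (1 + e)) := by
  obtain ⟨T0, hT0, h⟩ := dom A hA k hk hyp e he
  refine ⟨T0, hT0, fun T hT H => ?_⟩
  obtain ⟨Φ, _, h2, h3⟩ := h T hT
  refine le_trans ?_ h3
  exact setLIntegral_mono' measurableSet_Icc fun t _ => h2 H t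

/-- the measure of the set of the points of large energy -/
theorem meas_energy (A : ℝ) (hA : 1 / 2 < A) (k : ℕ) (hk : 1 ≤ k) (hyp : HypK k) (e : ℝ) (he : 0 < e) :
    ∃ T0 : ℝ, 1 ≤ T0 ∧ ∀ T : ℝ, T0 ≤ T → ∀ H w : ℝ,
      volume {t : ℝ | 1 ≤ t ∧ t ≤ T ∧ w * Real.log T ≤ Energy A H t} ≤
        ENNReal.ofReal (T ^ (1 - k * w + e)) := by
  obtain ⟨T0, hT0, h⟩ := dom A hA k hk hyp e he
  refine ⟨T0, hT0, fun T hT H w => ?_⟩
  obtain ⟨Φ, hΦ, h2, h3⟩ := h T hT
  have hT1 : 1 ≤ T := hT0.trans hT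
  have hTp : 0 < T := by linarith
  set a : ℝ := k * w with ha
  have hsub : {t : ℝ | 1 ≤ t ∧ t ≤ T ∧ w * Real.log T ≤ Energy A H t} ⊆
      {t : ℝ | ENNReal.ofReal (T ^ a) ≤ Φ t} ∩ Icc 1 T := by
    rintro t ⟨ht1, htT, htN⟩
    refine ⟨?_, ht1, htT⟩
    refine le_trans (ENNReal.ofReal_le_ofReal ?_) (h2 H t)
    rw [Real.rpow_def_of_pos hTp]
    apply Real.exp_le_exp.2
    calc Real.log T * a = k * (w * Real.log T) := by rw [ha]; ring
      _ ≤ _ := by gcongr
  have h6 := mul_meas_ge_le_lintegral (μ := volume.restrict (Icc 1 T)) hΦ (ENNReal.ofReal (T ^ a))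
  have h7 : volume.restrict (Icc 1 T) {t : ℝ | ENNReal.ofReal (T ^ a) ≤ Φ t} =
      volume ({t : ℝ | ENNReal.ofReal (T ^ a) ≤ Φ t} ∩ Icc 1 T) :=
    Measure.restrict_apply (measurableSet_le measurable_const hΦ)
  rw [h7] at h6
  refine (measure_mono hsub).trans ?_
  have h8 : ENNReal.ofReal (T ^ a) * volume ({t : ℝ | ENNReal.ofReal (T ^ a) ≤ Φ t} ∩ Icc 1 T) ≤
      ENNReal.ofReal (T ^ (1 + e)) := h6.trans h3
  have ha0 : 0 < T ^ a := Real.rpow_pos_of_pos hTp _
  have h9 : ENNReal.ofReal (T ^ (1 - a + e)) = ENNReal.ofReal (T ^ (1 + e)) / ENNReal.ofReal (T ^ a) := by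
    rw [← ENNReal.ofReal_div_of_pos ha0, ← Real.rpow_sub hTp]
    congr 2
    ring
  rw [h9, ENNReal.le_div_iff_mul_le (Or.inl (by positivity)) (Or.inl ENNReal.ofReal_ne_top), mul_comm]
  exact h8

/-- **pointwise bound of the energy** -/
theorem energy_growth (A : ℝ) (hA : 1 / 2 < A) (κ : ℝ) (hκ0 : 0 ≤ κ) (hκ1 : κ < 1) (hG : Growth κ)
    (e : ℝ) (he : 0 < e) :
    ∃ t0 : ℝ, 1 ≤ t0 ∧ ∀ t : ℝ, t0 ≤ t → ∀ H : ℝ, Energy A H t ≤ (2 * κ + e) * Real.log t := by
  obtain ⟨C, hC, hdom⟩ := en_dom A hA 1 le_rfl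
  set ε : ℝ := min (e / 4) (1 - κ) with hε
  have hε0 : 0 < ε := lt_min (by positivity) (by linarith)
  have hεe : ε ≤ e / 4 := min_le_left _ _
  have hε1 : κ + ε ≤ 1 := by have := min_le_right (e / 4) (1 - κ); rw [← hε] at this; linarith
  obtain ⟨C1', hC1'⟩ := hG ε hε0
  set C1 : ℝ := max C1' 0 with hC1d
  have hC10 : 0 ≤ C1 := le_max_right _ _
  set p : ℝ := 2 * (κ + ε) with hp
  have hp0 : 0 ≤ p := by rw [hp]; linarith
  have hp2 : p ≤ 2 := by rw [hp]; linarith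
  have hf : ∀ t, fk 1 t ≤ ENNReal.ofReal (C1 ^ 2 * (1 + |t|) ^ p) := by
    intro t
    unfold Pool.Agent.Y757.HW.fk
    apply ENNReal.ofReal_le_ofReal
    have hne : pt 0 t ≠ 1 := by
      intro h
      have := congrArg Complex.re h
      rw [pt_re, Complex.one_re] at this
      norm_num at this
    have h1 : ‖GG (pt 0 t)‖ ≤ ‖riemannZeta (pt 0 t)‖ := by
      rw [GG_of_ne hne, norm_mul]
      have := ratio_le (s := pt 0 t) (by rw [pt_re]; norm_num)
      exact mul_le_of_le_one_left (norm_nonneg _) this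
    have h2 : ‖riemannZeta (pt 0 t)‖ ≤ C1 * (1 + |t|) ^ (κ + ε) := by
      rw [Pool.Agent.Y757.HW.pt_w]
      refine (hC1' t).trans ?_
      gcongr
      exact le_max_left _ _
    have h3 : (0:ℝ) ≤ 1 + |t| := by positivity
    calc ‖GG (pt 0 t)‖ ^ (2 * 1) ≤ (C1 * (1 + |t|) ^ (κ + ε)) ^ 2 := by
          rw [mul_one]
          gcongr
          exact h1.trans h2
      _ = C1 ^ 2 * (1 + |t|) ^ p := by
          rw [mul_pow, ← Real.rpow_natCast ((1 + |t|) ^ (κ + ε)) 2, ← Real.rpow_mul h3, hp]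
          congr 2
          push_cast
          ring
  obtain ⟨c, hgood⟩ := kmu_good
  have h1 := kop_growth hgood (sq_nonneg C1) hp0 hp2 hf
  set A2 : ℝ := C1 ^ 2 * (∫⁻ y, wt y ∂kmu).toReal with hA2
  have hA20 : 0 ≤ A2 := by positivity
  set D : ℝ := C * A2 + 1 with hD
  have hD1 : 1 ≤ D := by
    have : 0 ≤ C * A2 := by positivity
    linarith
  have hq : 0 ≤ (Real.log D + p) / (e / 2) := by
    have : 0 ≤ Real.log D := Real.log_nonneg hD1
    positivity
  refine ⟨Real.exp ((Real.log D + p) / (e / 2) + 1), Real.one_le_exp (by linarith), fun t ht H => ?_⟩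
  have ht1 : 1 ≤ t := (Real.one_le_exp (by linarith)).trans ht
  have htp : 0 < t := by linarith
  have hlt : (Real.log D + p) / (e / 2) + 1 ≤ Real.log t := by rwa [Real.le_log_iff_exp_le htp]
  have hDt : Real.log D + p ≤ (e / 2) * Real.log t := by
    have h3 : (Real.log D + p) / (e / 2) ≤ Real.log t := by linarith
    rw [div_le_iff₀ (by positivity)] at h3
    linarith
  have h3 := (hdom H t).trans (mul_le_mul_right (h1 t) _)
  rw [← ENNReal.ofReal_mul hC, ENNReal.ofReal_le_ofReal_iff (by positivity)] at h3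
  rw [abs_of_pos htp] at h3
  have h4 : Real.exp ((1 : ℕ) * Energy A H t) ≤ D * (1 + t) ^ p := by
    refine h3.trans ?_
    rw [← mul_assoc]
    gcongr
    rw [hD]; linarith
  have h5 : Energy A H t ≤ Real.log D + p * Real.log (1 + t) := by
    have h6 : 0 < (1 + t) ^ p := Real.rpow_pos_of_pos (by linarith) _
    rw [← Real.log_rpow (by linarith), ← Real.log_mul (by linarith) h6.ne',
      Real.le_log_iff_exp_le (by positivity)]
    rw [Nat.cast_one, one_mul] at h4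
    exact h4
  have h6 : Real.log (1 + t) ≤ Real.log t + 1 := by
    have e1 : 1 + t = t * (1 + 1 / t) := by field_simp; ring
    rw [e1, Real.log_mul htp.ne' (by positivity)]
    have h7 := Real.log_le_sub_one_of_pos (show 0 < 1 + 1 / t by positivity)
    have h8 : 1 / t ≤ 1 := by rw [div_le_one htp]; exact ht1
    linarith
  have hlt0 : 0 ≤ Real.log t := Real.log_nonneg ht1
  have h8 : p * Real.log (1 + t) ≤ p * (Real.log t + 1) := by gcongr
  have h9 : p ≤ 2 * κ + e / 2 := by rw [hp]; linarith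
  have h10 : p * Real.log t ≤ (2 * κ + e / 2) * Real.log t := by gcongr
  linarith

end

end Pool.Agent.Helper14K9.DC
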