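import Pool.Agent.Helper14K9.DC.Main

set_option autoImplicit false

/-! The number of the zeros at heights of large energy -/

namespace Pool.Agent.Helper14K9.DC

open MeasureTheory Set Complex Filter Topology Pool.Agent.Y757.EM
open Pool.Agent.Y757.HW (Growth p_cnt)
open scoped ENNReal

noncomputable section

lemma log_lip {a : ℝ} (ha : 0 < a) (v v' : ℝ) :
    |Real.log (a ^ 2 + v ^ 2) - Real.log (a ^ 2 + v' ^ 2)| ≤ 1 / a * |v - v'| := by
  have hd : ∀ x : ℝ, HasDerivAt (fun x : ℝ => Real.log (a ^ 2 + x ^ 2)) (2 * x / (a ^ 2 + x ^ 2)) x := by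
    intro x
    have h1 : HasDerivAt (fun x : ℝ => a ^ 2 + x ^ 2) (2 * x) x := by
      have := (hasDerivAt_pow 2 x).const_add (a ^ 2)
      simpa using this
    exact h1.log (by positivity)
  have h := Convex.norm_image_sub_le_of_norm_deriv_le (f := fun x : ℝ => Real.log (a ^ 2 + x ^ 2))
    (C := 1 / a) (s := Set.univ) (x := v') (y := v) (fun x _ => (hd x).differentiableAt) (fun x _ => by
      rw [(hd x).deriv, Real.norm_eq_abs, abs_div, abs_of_pos (show 0 < a ^ 2 + x ^ 2 by positivity),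
        div_le_div_iff₀ (by positivity) ha, abs_mul, abs_of_pos (show (0:ℝ) < 2 by norm_num)]
      nlinarith [sq_nonneg (a - |x|), sq_abs x]) convex_univ (mem_univ _) (mem_univ _)
  rw [Real.norm_eq_abs, Real.norm_eq_abs] at h
  exact h

lemma log_q_lip {A : ℝ} (hA : 1 / 2 < A) {ρ : ℂ} (h0 : riemannZeta ρ = 0) (h1 : 1 / 2 < ρ.re) (v v' : ℝ) :
    Real.log (q A (ρ.re - 1 / 2) v) ≤ Real.log (q A (ρ.re - 1 / 2) v') + (2 + 1 / (A - 1 / 2)) * |v - v'| := by
  have hre := re_lt h0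
  have hp : 0 < A + (ρ.re - 1 / 2) := by linarith
  have hm : 0 < A - (ρ.re - 1 / 2) := by linarith
  have e : ∀ x : ℝ, Real.log (q A (ρ.re - 1 / 2) x) =
      Real.log ((A + (ρ.re - 1 / 2)) ^ 2 + x ^ 2) - Real.log ((A - (ρ.re - 1 / 2)) ^ 2 + x ^ 2) := by
    intro x
    unfold q
    rw [Real.log_div (by positivity) (by positivity)]
  rw [e v, e v']
  have l1 := log_lip hp v v'
  have l2 := log_lip hm v v'
  have l3 := (abs_le.1 l1).2
  have l4 := (abs_le.1 l2).1
  have b1 : 1 / (A + (ρ.re - 1 / 2)) ≤ 2 := by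
    rw [div_le_iff₀ hp]; linarith
  have b2 : 1 / (A - (ρ.re - 1 / 2)) ≤ 1 / (A - 1 / 2) := by
    apply one_div_le_one_div_of_le (by linarith) (by linarith)
  have b3 : 1 / (A + (ρ.re - 1 / 2)) * |v - v'| ≤ 2 * |v - v'| := by gcongr
  have b4 : 1 / (A - (ρ.re - 1 / 2)) * |v - v'| ≤ 1 / (A - 1 / 2) * |v - v'| := by gcongr
  have : (2 + 1 / (A - 1 / 2)) * |v - v'| = 2 * |v - v'| + 1 / (A - 1 / 2) * |v - v'| := by ring
  linarith

lemma energy_shift {A : ℝ} (hA : 1 / 2 < A) (H : ℝ) : ∃ Q : ℝ, 0 ≤ Q ∧ ∀ η t γ : ℝ, |t - γ| ≤ η → η ≤ 1 →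
    1 ≤ γ → Energy A H γ ≤ Energy A (H + 1) t + η * Q * (Real.log γ + 1) := by
  classical
  obtain ⟨K, hK, h⟩ := p_cnt
  obtain ⟨B, hB, hb⟩ := h (2 * |H| + 1) (by linarith [abs_nonneg H])
  set L0 : ℝ := 2 + 1 / (A - 1 / 2) with hL0
  have hA' : 0 < A - 1 / 2 := by linarith
  have hL00 : 0 ≤ L0 := by positivity
  refine ⟨L0 * (K * (2 * |H| + 1) + B), by positivity, fun η t γ ht hη hγ => ?_⟩
  have hη0 : 0 ≤ η := (abs_nonneg _).trans ht
  have hl : 0 ≤ Real.log γ := Real.log_nonneg hγ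
  have hN := hb γ hγ (right_fin H γ).toFinset fun z hz => by
    rw [Set.Finite.mem_toFinset] at hz
    obtain ⟨h1, h2, h3⟩ := hz
    refine ⟨h1, by linarith, re_lt h1, ?_⟩
    rw [abs_sub_comm]
    linarith [le_abs_self H]
  rw [Energy_eq, Energy_eq]
  have hsub : (right_fin H γ).toFinset ⊆ (right_fin (H + 1) t).toFinset := by
    intro z hz
    rw [Set.Finite.mem_toFinset] at hz ⊢
    obtain ⟨h1, h2, h3⟩ := hz
    refine ⟨h1, h2, ?_⟩
    have := abs_sub_le t γ z.im
    linarith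
  have h1 : ∑ ρ ∈ (right_fin H γ).toFinset,
      (analyticOrderNatAt riemannZeta ρ : ℝ) * Real.log (q A (ρ.re - 1 / 2) (γ - ρ.im)) ≤
      ∑ ρ ∈ (right_fin H γ).toFinset, ((analyticOrderNatAt riemannZeta ρ : ℝ) *
        Real.log (q A (ρ.re - 1 / 2) (t - ρ.im)) + (analyticOrderNatAt riemannZeta ρ : ℝ) * (L0 * η)) := by
    refine Finset.sum_le_sum fun ρ hρ => ?_
    rw [Set.Finite.mem_toFinset] at hρ
    rw [← mul_add]
    refine mul_le_mul_of_nonneg_left ?_ (Nat.cast_nonneg _)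
    refine (log_q_lip hA hρ.1 hρ.2.1 (γ - ρ.im) (t - ρ.im)).trans ?_
    have e : |γ - ρ.im - (t - ρ.im)| = |t - γ| := by
      rw [abs_sub_comm t γ]
      congr 1
      ring
    rw [e, ← hL0]
    gcongr
  refine h1.trans ?_
  rw [Finset.sum_add_distrib, ← Finset.sum_mul]
  refine add_le_add ?_ ?_
  · refine Finset.sum_le_sum_of_subset_of_nonneg hsub fun z hz _ => ?_
    rw [Set.Finite.mem_toFinset] at hz
    exact mul_nonneg (Nat.cast_nonneg _) (log_q_nonneg hA hz.1 hz.2.1 _)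
  · calc (∑ ρ ∈ (right_fin H γ).toFinset, (analyticOrderNatAt riemannZeta ρ : ℝ)) * (L0 * η)
        ≤ (K * (2 * |H| + 1) * Real.log γ + B) * (L0 * η) := by gcongr
      _ ≤ ((K * (2 * |H| + 1) + B) * (Real.log γ + 1)) * (L0 * η) := by
          have : K * (2 * |H| + 1) * Real.log γ + B ≤ (K * (2 * |H| + 1) + B) * (Real.log γ + 1) := by
            have h2 : 0 ≤ K * (2 * |H| + 1) := by positivity
            nlinarith [mul_nonneg hB hl]
          gcongr
      _ = _ := by ring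

/-- **the number of the zeros at heights of large energy** -/
theorem energy_zeros (A : ℝ) (hA : 1 / 2 < A) (H : ℝ) (k : ℕ) (hk : 1 ≤ k) (hyp : HypK k)
    (e : ℝ) (he : 0 < e) :
    ∃ T0 : ℝ, 1 ≤ T0 ∧ ∀ T : ℝ, T0 ≤ T → ∀ w : ℝ, ∀ S : Finset ℂ,
      (∀ ρ ∈ S, riemannZeta ρ = 0 ∧ 0 < ρ.re ∧ 2 ≤ ρ.im ∧ ρ.im ≤ T ∧
        w * Real.log T ≤ Energy A H ρ.im) →
      ∑ ρ ∈ S, (analyticOrderNatAt riemannZeta ρ : ℝ) ≤ T ^ (1 - k * w + e) := by
  classical
  obtain ⟨Q, hQ, hshift⟩ := energy_shift hA H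
  obtain ⟨K2, hK2, hcnt2⟩ := p_cnt
  obtain ⟨B1, hB1, hb1⟩ := hcnt2 1 le_rfl
  have hk0 : (0:ℝ) < k := by exact_mod_cast hk
  set η : ℝ := min (1 / 2) (e / (8 * k * (Q + 1))) with hη
  have hη0 : 0 < η := lt_min (by norm_num) (by positivity)
  have hη1 : η ≤ 1 / 2 := min_le_left _ _
  have hη2 : η ≤ e / (8 * k * (Q + 1)) := min_le_right _ _
  obtain ⟨T1, hT1, hmeas⟩ := meas_energy A hA k hk hyp (e / 4) (by positivity)
  obtain ⟨T2, hT2⟩ := ev_log K2 B1 (2 ^ (1 + e / 4) / (2 * η)) (e / 2) (by positivity)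
  refine ⟨max (max T1 T2) (Real.exp 1), hT1.trans ((le_max_left _ _).trans (le_max_left _ _)),
    fun T hT w0 S hS => ?_⟩
  have hTT1 : T1 ≤ T := ((le_max_left _ _).trans (le_max_left _ _)).trans hT
  have hTT2 : T2 ≤ T := ((le_max_right _ _).trans (le_max_left _ _)).trans hT
  have hTe : Real.exp 1 ≤ T := (le_max_right _ _).trans hT
  have hT1' : 1 ≤ T := hT1.trans hTT1
  have hTp : 0 < T := by linarith
  have hlog : 1 ≤ Real.log T := by rwa [Real.le_log_iff_exp_le hTp]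
  set w : ℝ := w0 - 2 * η * Q with hw
  set U : ℝ := T + 1 with hU
  have hU1 : 1 ≤ U := by linarith
  have hU0 : 0 < U := by linarith
  have hlogU : 0 < Real.log U := Real.log_pos (by linarith)
  set w' : ℝ := w * Real.log T / Real.log U with hw'
  have hw'U : w' * Real.log U = w * Real.log T := by
    rw [hw']; field_simp
  set E : Set ℝ := {t : ℝ | 1 ≤ t ∧ t ≤ U ∧ w' * Real.log U ≤ Energy A (H + 1) t} with hE
  have hM0 : 0 ≤ K2 * 1 * Real.log U + B1 := by positivity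
  have hcou := cou η hη0 S (analyticOrderNatAt riemannZeta) (K2 * 1 * Real.log U + B1) E
    (by
      intro ρ hρ t ht
      obtain ⟨h1, h2, h3, h4, h5⟩ := hS ρ hρ
      obtain ⟨h6, h7⟩ := abs_le.1 ht
      refine ⟨by linarith, by linarith, ?_⟩
      rw [hw'U]
      have h8 := hshift η t ρ.im ht (by linarith) (by linarith)
      have h9 : Real.log ρ.im ≤ Real.log T := Real.log_le_log (by linarith) h4
      have h10 : η * Q * (Real.log ρ.im + 1) ≤ η * Q * (2 * Real.log T) := by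
        gcongr
        linarith
      have h11 : w * Real.log T = w0 * Real.log T - η * Q * (2 * Real.log T) := by rw [hw]; ring
      linarith)
    (by
      intro t
      rcases (S.filter (fun ρ => |t - ρ.im| ≤ η)).eq_empty_or_nonempty with h0 | ⟨ρ, hρ⟩
      · rw [h0, Finset.sum_empty]; exact hM0
      · rw [Finset.mem_filter] at hρ
        obtain ⟨_, h2, h3, h4, h5⟩ := hS ρ hρ.1
        obtain ⟨h6, h7⟩ := abs_le.1 hρ.2
        have ht1 : 1 ≤ t := by linarith
        refine (hb1 t ht1 _ fun ρ' hρ' => ?_).trans ?_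
        · rw [Finset.mem_filter] at hρ'
          obtain ⟨g1, g2, _, _, _⟩ := hS ρ' hρ'.1
          refine ⟨g1, g2, re_lt g1, ?_⟩
          rw [abs_sub_comm]
          have := hρ'.2
          linarith
        · have : Real.log t ≤ Real.log U := Real.log_le_log (by linarith) (by linarith)
          gcongr)
  have hvol := hmeas U (by linarith) (H + 1) w'
  have hfin : ENNReal.ofReal ((2 * η) * ∑ ρ ∈ S, (analyticOrderNatAt riemannZeta ρ : ℝ)) ≤
      ENNReal.ofReal ((K2 * 1 * Real.log U + B1) * U ^ (1 - k * w' + e / 4)) := by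
    rw [ENNReal.ofReal_mul hM0]
    exact hcou.trans (mul_le_mul_right hvol _)
  rw [ENNReal.ofReal_le_ofReal_iff (by positivity)] at hfin
  -- the power of U
  have hUw : U ^ (1 - k * w' + e / 4) ≤ 2 ^ (1 + e / 4) * T ^ (1 + e / 4 - k * w) := by
    have e1 : U ^ (1 - k * w' + e / 4) = U ^ (1 + e / 4) * T ^ (-(k * w)) := by
      rw [show 1 - k * w' + e / 4 = (1 + e / 4) + (-(k * w')) by ring, Real.rpow_add hU0]
      congr 1
      rw [Real.rpow_def_of_pos hU0, Real.rpow_def_of_pos hTp]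
      congr 1
      have : Real.log U * (-(k * w')) = -(k * (w' * Real.log U)) := by ring
      rw [this, hw'U]
      ring
    rw [e1]
    have e2 : U ^ (1 + e / 4) ≤ 2 ^ (1 + e / 4) * T ^ (1 + e / 4) := by
      rw [← Real.mul_rpow (by norm_num) hTp.le]
      exact Real.rpow_le_rpow hU0.le (by linarith) (by positivity)
    calc U ^ (1 + e / 4) * T ^ (-(k * w)) ≤ (2 ^ (1 + e / 4) * T ^ (1 + e / 4)) * T ^ (-(k * w)) := by
          gcongr
      _ = _ := by
          rw [mul_assoc, ← Real.rpow_add hTp]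
          congr 2
  have hkw : -(k * w) ≤ -(k * w0) + e / 4 := by
    have h3 : k * (2 * η * Q) ≤ e / 4 := by
      calc k * (2 * η * Q) ≤ k * (2 * (e / (8 * k * (Q + 1))) * Q) := by gcongr
        _ = e / 4 * (Q / (Q + 1)) := by field_simp; ring
        _ ≤ e / 4 * 1 := by
            have : Q / (Q + 1) ≤ 1 := by rw [div_le_one (by positivity)]; linarith
            gcongr
        _ = e / 4 := mul_one _
    have h4 : k * w = k * w0 - k * (2 * η * Q) := by rw [hw]; ring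
    linarith
  have hlast := hT2 T hTT2
  have h10 : ∑ ρ ∈ S, (analyticOrderNatAt riemannZeta ρ : ℝ) ≤
      (2 ^ (1 + e / 4) / (2 * η) * (K2 * Real.log U + B1)) * T ^ (1 + e / 4 - k * w) := by
    have h11 : ∑ ρ ∈ S, (analyticOrderNatAt riemannZeta ρ : ℝ) ≤
        ((K2 * 1 * Real.log U + B1) * U ^ (1 - k * w' + e / 4)) / (2 * η) := by
      rw [le_div_iff₀ (by positivity), mul_comm]
      exact hfin
    refine h11.trans ?_
    rw [mul_one, div_le_iff₀ (by positivity)]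
    calc (K2 * Real.log U + B1) * U ^ (1 - k * w' + e / 4)
        ≤ (K2 * Real.log U + B1) * (2 ^ (1 + e / 4) * T ^ (1 + e / 4 - k * w)) := by
          have : 0 ≤ K2 * Real.log U + B1 := by positivity
          gcongr
      _ = _ := by field_simp
  refine h10.trans ?_
  calc (2 ^ (1 + e / 4) / (2 * η) * (K2 * Real.log U + B1)) * T ^ (1 + e / 4 - k * w)
      ≤ T ^ (e / 2) * T ^ (1 + e / 4 - k * w) := by gcongr
    _ = T ^ (1 + 3 * e / 4 - k * w) := by
        rw [← Real.rpow_add hTp]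
        congr 1
        ring
    _ ≤ _ := by
        apply Real.rpow_le_rpow_of_exponent_le hT1'
        linarith

/-- **the largest possible number of zeros in the disc** -/
theorem near_max (κ : ℝ) (hκ0 : 0 ≤ κ) (hκ1 : κ < 1) (hG : Growth κ) (δ : ℝ) (hδ : 0 < δ)
    (e : ℝ) (he : 0 < e) : ∃ t0 : ℝ, 1 ≤ t0 ∧ ∀ ρ : ℂ, riemannZeta ρ = 0 → 1 / 2 + δ < ρ.re → t0 ≤ ρ.im →
      (count (near δ ρ) : ℝ) * Real.log ((ρ.re - δ) / (1 - ρ.re + δ)) ≤ (κ + e) * Real.log ρ.im := by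
  obtain ⟨K, hK, hnear⟩ := near_cnt
  set d0 : ℝ := e * δ / (4 * (K + 1)) with hd0
  have hd00 : 0 < d0 := by positivity
  obtain ⟨t1, ht1, h⟩ := energy_growth (1 / 2 + d0) (by linarith) κ hκ0 hκ1 hG (e / 2) (by positivity)
  refine ⟨max t1 (Real.exp 1), ht1.trans (le_max_left _ _), fun ρ h0 hre him => ?_⟩
  have him1 : t1 ≤ ρ.im := (le_max_left _ _).trans him
  have him2 : Real.exp 1 ≤ ρ.im := (le_max_right _ _).trans him
  have him3 : 1 ≤ ρ.im := ht1.trans him1
  have hlog : 1 ≤ Real.log ρ.im := by rwa [Real.le_log_iff_exp_le (by linarith)]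
  have hr1 := re_lt h0
  have h1 := energy_ge (σ := ρ.re) (η := 0) hδ hre hr1.le hd00 le_rfl (by norm_num) le_rfl
    (t := ρ.im) (by rw [sub_self, abs_zero])
  have h2 := h ρ.im him1 1
  have h3 := hnear δ ρ hre hδ him3
  have hr : 0 < 1 - ρ.re + δ := by linarith
  have h4 : 2 * (d0 + 0) / (1 - ρ.re + δ) ≤ 2 * d0 / δ := by
    rw [add_zero]
    gcongr
    linarith
  have h5 : (count (near δ ρ) : ℝ) * (2 * d0 / δ) ≤ e * Real.log ρ.im := by
    have h6 : 2 * d0 / δ = e / (2 * (K + 1)) := by rw [hd0]; field_simp; ring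
    rw [h6]
    calc (count (near δ ρ) : ℝ) * (e / (2 * (K + 1))) ≤ (K * (2 * Real.log ρ.im)) * (e / (2 * (K + 1))) := by
          gcongr
          refine h3.trans ?_
          gcongr
          linarith
      _ = (K / (K + 1)) * (e * Real.log ρ.im) := by field_simp
      _ ≤ 1 * (e * Real.log ρ.im) := by
          have : K / (K + 1) ≤ 1 := by rw [div_le_one (by positivity)]; linarith
          gcongr
      _ = _ := one_mul _
  have h6 : (count (near δ ρ) : ℝ) * (2 * (d0 + 0) / (1 - ρ.re + δ)) ≤ (count (near δ ρ) : ℝ) * (2 * d0 / δ) :=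
    mul_le_mul_of_nonneg_left h4 (Nat.cast_nonneg _)
  have h7 := h1.trans h2
  rw [mul_sub] at h7
  have h8 : (count (near δ ρ) : ℝ) * (2 * Real.log ((ρ.re - δ) / (1 - ρ.re + δ))) =
    2 * ((count (near δ ρ) : ℝ) * Real.log ((ρ.re - δ) / (1 - ρ.re + δ))) := by ring
  rw [h8] at h7
  nlinarith

end

end Pool.Agent.Helper14K9.DC
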