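import Pool.Agent.Helper14K9.DC.Clu

set_option autoImplicit false

/-! The number of the zeros in dense clusters -/

namespace Pool.Agent.Helper14K9.DC

open MeasureTheory Set Complex Filter Topology Pool.Agent.Y757.EM
open Pool.Agent.Y757.HW (Growth p_cnt)
open scoped ENNReal

noncomputable section

lemma ev_log (K B D e : ℝ) (he : 0 < e) : ∃ T0 : ℝ, ∀ T : ℝ, T0 ≤ T →
    D * (K * Real.log (T + 1) + B) ≤ T ^ e := by
  have h1 : (fun T : ℝ => D * (K * Real.log (T + 1) + B)) =o[atTop] fun T : ℝ => (T + 1) ^ (e / 2) := by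
    have h2 : (fun T : ℝ => Real.log T) =o[atTop] fun T : ℝ => T ^ (e / 2) :=
      isLittleO_log_rpow_atTop (by positivity)
    have ht : Tendsto (fun T : ℝ => T + 1) atTop atTop := tendsto_atTop_add_const_right _ _ tendsto_id
    have h3 : (fun T : ℝ => Real.log (T + 1)) =o[atTop] fun T : ℝ => (T + 1) ^ (e / 2) :=
      h2.comp_tendsto ht
    have h4 : (fun _ : ℝ => B) =o[atTop] fun T : ℝ => (T + 1) ^ (e / 2) := by
      refine Asymptotics.isLittleO_const_left.2 (Or.inr ?_)
      have h5 : Tendsto (fun T : ℝ => (T + 1) ^ (e / 2)) atTop atTop :=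
        (tendsto_rpow_atTop (by positivity)).comp ht
      exact tendsto_norm_atTop_atTop.comp h5
    exact ((h3.const_mul_left K).add h4).const_mul_left D
  have h2 := h1.bound (show (0:ℝ) < 1 by norm_num)
  obtain ⟨T1, hT1⟩ := eventually_atTop.1 h2
  refine ⟨max T1 (4 : ℝ), fun T hT => ?_⟩
  have hT4 : (4 : ℝ) ≤ T := (le_max_right _ _).trans hT
  have h3 := hT1 T ((le_max_left _ _).trans hT)
  rw [one_mul, Real.norm_eq_abs, Real.norm_of_nonneg (by positivity)] at h3
  refine (le_abs_self _).trans (h3.trans ?_)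
  calc (T + 1) ^ (e / 2) ≤ (T ^ (2:ℝ)) ^ (e / 2) := by
        refine Real.rpow_le_rpow (by positivity) ?_ (by positivity)
        rw [Real.rpow_two]
        nlinarith
    _ = T ^ e := by
        rw [← Real.rpow_mul (by positivity)]
        congr 1
        ring

lemma near_cnt : ∃ K : ℝ, 0 ≤ K ∧ ∀ δ : ℝ, ∀ ρ : ℂ, 1 / 2 + δ < ρ.re → 0 < δ → 1 ≤ ρ.im →
    (count (near δ ρ) : ℝ) ≤ K * (Real.log ρ.im + 1) := by
  obtain ⟨K, hK, h⟩ := p_cnt
  obtain ⟨B, hB, hb⟩ := h 1 le_rfl
  refine ⟨K + B, by positivity, fun δ ρ hre hδ him => ?_⟩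
  rw [count_eq (near_finite δ ρ)]
  have h1 := hb ρ.im him (near_finite δ ρ).toFinset fun z hz => by
    rw [Set.Finite.mem_toFinset] at hz
    obtain ⟨h1, h2⟩ := hz
    have h3 := Complex.abs_re_le_norm (z - (1 + ρ.im * I))
    have h4 := Complex.abs_im_le_norm (z - (1 + ρ.im * I))
    have h5 : (z - (1 + ρ.im * I)).re = z.re - 1 := by simp
    have h6 : (z - (1 + ρ.im * I)).im = z.im - ρ.im := by simp
    rw [h5] at h3
    rw [h6] at h4
    refine ⟨h1, ?_, re_lt h1, by linarith⟩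
    have := (abs_le.1 (h3.trans h2)).1
    linarith
  have hl : 0 ≤ Real.log ρ.im := Real.log_nonneg him
  refine h1.trans ?_
  have : B ≤ B * (Real.log ρ.im + 1) := le_mul_of_one_le_right hB (by linarith)
  nlinarith

/-- **the number of the zeros in dense clusters** -/
theorem clusters (k : ℕ) (hk : 1 ≤ k) (hyp : HypK k) (δ : ℝ) (hδ : 0 < δ) (hδ1 : δ < 1 / 2)
    (e : ℝ) (he : 0 < e) :
    ∃ T0 : ℝ, 1 ≤ T0 ∧ ∀ T : ℝ, T0 ≤ T → ∀ σ c : ℝ, 1 / 2 + δ < σ → σ ≤ 1 → 0 ≤ c → ∀ S : Finset ℂ,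
      (∀ ρ ∈ S, riemannZeta ρ = 0 ∧ σ ≤ ρ.re ∧ 2 ≤ ρ.im ∧ ρ.im ≤ T ∧
        c * Real.log T ≤ count (near δ ρ)) →
      ∑ ρ ∈ S, (analyticOrderNatAt riemannZeta ρ : ℝ) ≤
        T ^ (1 - 2 * k * c * Real.log ((σ - δ) / (1 - σ + δ)) + e) := by
  classical
  obtain ⟨K, hK, hnear⟩ := near_cnt
  obtain ⟨K2, hK2, hcnt2⟩ := p_cnt
  obtain ⟨B1, hB1, hb1⟩ := hcnt2 1 le_rfl
  have hk0 : (0:ℝ) < k := by exact_mod_cast hk
  set κ : ℝ := min (1 / 2) (e * δ / (16 * k * (K + 1))) with hκ
  have hκ0 : 0 < κ := lt_min (by norm_num) (by positivity)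
  have hκ1 : κ ≤ 1 / 2 := min_le_left _ _
  have hκ2 : κ ≤ e * δ / (16 * k * (K + 1)) := min_le_right _ _
  set d0 : ℝ := κ / 2 with hd0
  have hd00 : 0 < d0 := by positivity
  obtain ⟨T1, hT1, hmeas⟩ := meas_energy (1 / 2 + d0) (by linarith) k hk hyp (e / 4) (by positivity)
  obtain ⟨T2, hT2⟩ := ev_log K2 B1 (2 ^ (1 + e / 4) / κ) (e / 2) (by positivity)
  refine ⟨max (max T1 T2) (Real.exp 1), hT1.trans ((le_max_left _ _).trans (le_max_left _ _)),
    fun T hT σ c hσ hσ1 hc S hS => ?_⟩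
  have hTT1 : T1 ≤ T := ((le_max_left _ _).trans (le_max_left _ _)).trans hT
  have hTT2 : T2 ≤ T := ((le_max_right _ _).trans (le_max_left _ _)).trans hT
  have hTe : Real.exp 1 ≤ T := (le_max_right _ _).trans hT
  have hT1' : 1 ≤ T := hT1.trans hTT1
  have hTp : 0 < T := by linarith
  have hlog : 1 ≤ Real.log T := by rwa [Real.le_log_iff_exp_le hTp]
  have hrhs : 0 ≤ T ^ (1 - 2 * k * c * Real.log ((σ - δ) / (1 - σ + δ)) + e) := Real.rpow_nonneg hTp.le _
  rcases S.eq_empty_or_nonempty with hSe | ⟨ρ0, hρ0⟩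
  · rw [hSe, Finset.sum_empty]; exact hrhs
  -- c is bounded
  have hcK : c ≤ 2 * K := by
    obtain ⟨_, h2, h3, h4, h5⟩ := hS ρ0 hρ0
    have h6 := hnear δ ρ0 (by linarith) hδ (by linarith)
    have h7 : Real.log ρ0.im ≤ Real.log T := Real.log_le_log (by linarith) h4
    have h8 : c * Real.log T ≤ 2 * K * Real.log T := by
      refine h5.trans (h6.trans ?_)
      calc K * (Real.log ρ0.im + 1) ≤ K * (Real.log T + Real.log T) := by gcongr
        _ = _ := by ring
    exact le_of_mul_le_mul_right h8 (by linarith)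
  set L : ℝ := Real.log ((σ - δ) / (1 - σ + δ)) with hL
  set r : ℝ := 1 - σ + δ with hr
  have hrδ : δ ≤ r := by rw [hr]; linarith
  have hr0 : 0 < r := by linarith
  set b : ℝ := 2 * L - 2 * κ / r with hb
  set w : ℝ := c * b with hw
  set U : ℝ := T + 1 with hU
  have hU1 : 1 ≤ U := by linarith
  have hU0 : 0 < U := by linarith
  have hlogU : 0 < Real.log U := Real.log_pos (by linarith)
  set w' : ℝ := w * Real.log T / Real.log U with hw'
  have hw'U : w' * Real.log U = w * Real.log T := by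
    rw [hw']; field_simp
  set E : Set ℝ := {t : ℝ | 1 ≤ t ∧ t ≤ U ∧ w' * Real.log U ≤ Energy (1 / 2 + d0) 1 t} with hE
  have hM0 : 0 ≤ K2 * 1 * Real.log U + B1 := by positivity
  have hcou := cou d0 hd00 S (analyticOrderNatAt riemannZeta) (K2 * 1 * Real.log U + B1) E
    (by
      intro ρ hρ t ht
      obtain ⟨h1, h2, h3, h4, h5⟩ := hS ρ hρ
      obtain ⟨h6, h7⟩ := abs_le.1 ht
      refine ⟨by linarith, by linarith, ?_⟩
      rw [hw'U]
      have h8 := energy_ge hδ hσ hσ1 hd00 hd00.le (by linarith) h2 ht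
      have h9 : 2 * (d0 + d0) / r = 2 * κ / r := by rw [hd0]; ring
      rw [← hr, h9, ← hL, ← hb] at h8
      rcases le_total 0 b with hb0 | hb0
      · refine le_trans ?_ h8
        calc w * Real.log T = (c * Real.log T) * b := by rw [hw]; ring
          _ ≤ _ := by gcongr
      · refine le_trans ?_ (Energy_nonneg (by linarith) 1 t)
        have : w ≤ 0 := mul_nonpos_of_nonneg_of_nonpos hc hb0
        exact mul_nonpos_of_nonpos_of_nonneg this (by linarith))
    (by
      intro t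
      rcases (S.filter (fun ρ => |t - ρ.im| ≤ d0)).eq_empty_or_nonempty with h0 | ⟨ρ, hρ⟩
      · rw [h0, Finset.sum_empty]; exact hM0
      · rw [Finset.mem_filter] at hρ
        obtain ⟨_, h2, h3, h4, h5⟩ := hS ρ hρ.1
        obtain ⟨h6, h7⟩ := abs_le.1 hρ.2
        have ht1 : 1 ≤ t := by linarith
        refine (hb1 t ht1 _ fun ρ' hρ' => ?_).trans ?_
        · rw [Finset.mem_filter] at hρ'
          obtain ⟨g1, g2, _, _, _⟩ := hS ρ' hρ'.1
          refine ⟨g1, by linarith, re_lt g1, ?_⟩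
          rw [abs_sub_comm]
          have := hρ'.2
          linarith
        · have : Real.log t ≤ Real.log U := Real.log_le_log (by linarith) (by linarith)
          gcongr)
  have hvol := hmeas U (by linarith) 1 w'
  have hfin : ENNReal.ofReal ((2 * d0) * ∑ ρ ∈ S, (analyticOrderNatAt riemannZeta ρ : ℝ)) ≤
      ENNReal.ofReal ((K2 * 1 * Real.log U + B1) * U ^ (1 - k * w' + e / 4)) := by
    rw [ENNReal.ofReal_mul hM0]
    exact hcou.trans (mul_le_mul_right hvol _)
  rw [ENNReal.ofReal_le_ofReal_iff (by positivity)] at hfin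
  have h2d : 2 * d0 = κ := by rw [hd0]; ring
  rw [h2d] at hfin
  -- the power of U
  have hUw : U ^ (1 - k * w' + e / 4) ≤ 2 ^ (1 + e / 4) * T ^ (1 + e / 4 - k * w) := by
    have e1 : U ^ (1 - k * w' + e / 4) = U ^ (1 + e / 4) * T ^ (-(k * w)) := by
      rw [show 1 - k * w' + e / 4 = (1 + e / 4) + (-(k * w')) by ring, Real.rpow_add hU0]
      congr 1
      rw [Real.rpow_def_of_pos hU0, Real.rpow_def_of_pos hTp]
      congr 1
      have : Real.log U * (-(k * w')) = -(k * (w' * Real.log U)) := by ring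
      rw [this, hw'U]
      ring
    rw [e1]
    have e2 : U ^ (1 + e / 4) ≤ 2 ^ (1 + e / 4) * T ^ (1 + e / 4) := by
      rw [← Real.mul_rpow (by norm_num) hTp.le]
      exact Real.rpow_le_rpow hU0.le (by linarith) (by positivity)
    calc U ^ (1 + e / 4) * T ^ (-(k * w)) ≤ (2 ^ (1 + e / 4) * T ^ (1 + e / 4)) * T ^ (-(k * w)) := by
          gcongr
      _ = _ := by
          rw [mul_assoc, ← Real.rpow_add hTp]
          congr 2
  have hkw : -(k * w) ≤ -(2 * k * c * L) + e / 4 := by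
    have h1 : 2 * κ / r ≤ 2 * κ / δ := by gcongr
    have h2 : κ / δ ≤ e / (16 * k * (K + 1)) := by
      rw [div_le_iff₀ hδ]
      refine hκ2.trans (le_of_eq ?_)
      ring
    have h3 : k * c * (2 * κ / r) ≤ e / 4 := by
      calc k * c * (2 * κ / r) ≤ k * (2 * K) * (2 * (e / (16 * k * (K + 1)))) := by
            have h4 : 2 * κ / r ≤ 2 * (e / (16 * k * (K + 1))) := by
              refine h1.trans ?_
              have : 2 * κ / δ = 2 * (κ / δ) := by ring
              rw [this]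
              linarith
            have h5 : 0 ≤ 2 * κ / r := by positivity
            gcongr
        _ = e / 4 * (K / (K + 1)) := by field_simp; ring
        _ ≤ e / 4 * 1 := by
            have : K / (K + 1) ≤ 1 := by rw [div_le_one (by positivity)]; linarith
            gcongr
        _ = e / 4 := mul_one _
    have h4 : k * w = 2 * k * c * L - k * c * (2 * κ / r) := by rw [hw, hb]; ring
    linarith
  have hlast := hT2 T hTT2
  have h10 : ∑ ρ ∈ S, (analyticOrderNatAt riemannZeta ρ : ℝ) ≤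
      (2 ^ (1 + e / 4) / κ * (K2 * Real.log U + B1)) * T ^ (1 + e / 4 - k * w) := by
    have h11 : ∑ ρ ∈ S, (analyticOrderNatAt riemannZeta ρ : ℝ) ≤
        ((K2 * 1 * Real.log U + B1) * U ^ (1 - k * w' + e / 4)) / κ := by
      rw [le_div_iff₀ hκ0, mul_comm]
      exact hfin
    refine h11.trans ?_
    rw [mul_one, div_le_iff₀ hκ0]
    calc (K2 * Real.log U + B1) * U ^ (1 - k * w' + e / 4)
        ≤ (K2 * Real.log U + B1) * (2 ^ (1 + e / 4) * T ^ (1 + e / 4 - k * w)) := by
          have : 0 ≤ K2 * Real.log U + B1 := by positivity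
          gcongr
      _ = _ := by field_simp
  refine h10.trans ?_
  calc (2 ^ (1 + e / 4) / κ * (K2 * Real.log U + B1)) * T ^ (1 + e / 4 - k * w)
      ≤ T ^ (e / 2) * T ^ (1 + e / 4 - k * w) := by gcongr
    _ = T ^ (1 + 3 * e / 4 - k * w) := by
        rw [← Real.rpow_add hTp]
        congr 1
        ring
    _ ≤ _ := by
        apply Real.rpow_le_rpow_of_exponent_le hT1'
        linarith

end

end Pool.Agent.Helper14K9.DC
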